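import Pool.Agent.Y961.JR.Disc

set_option autoImplicit false

/-! # Joint distribution modulo one of linear sequences: lower bounds for products of arcs -/

namespace Pool.Agent.L0h79.SN

open Finset Filter
open Pool.Agent.H469R2.NK (e norm_e e_add conj_e)
open Pool.Agent.Y961.JR (discJ)

/-- geometric sums -/
theorem lin_sum {θ : ℝ} (hθ : ∀ k : ℤ, θ ≠ k) (b : ℝ) :
    ∃ C : ℝ, 0 ≤ C ∧ ∀ N : ℕ, ‖∑ n ∈ range N, e (θ * n + b)‖ ≤ C := by
  have hne : e θ - 1 ≠ 0 := by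
    rw [sub_ne_zero]
    intro h
    unfold Pool.Agent.H469R2.NK.e at h
    rw [Complex.exp_eq_one_iff] at h
    obtain ⟨k, hk⟩ := h
    apply hθ k
    have h1 : (((2 * Real.pi * θ : ℝ) : ℂ)) = ((2 * Real.pi * k : ℝ) : ℂ) := by
      have h2 : (((2 * Real.pi * θ : ℝ) : ℂ)) * Complex.I =
          ((2 * Real.pi * k : ℝ) : ℂ) * Complex.I := by
        rw [hk]
        push_cast
        ring
      exact mul_right_cancel₀ Complex.I_ne_zero h2
    have h3 : 2 * Real.pi * θ = 2 * Real.pi * k := by exact_mod_cast h1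
    have h4 : (2 * Real.pi) ≠ 0 := by positivity
    exact mul_left_cancel₀ h4 h3
  have hgeo : ∀ N : ℕ, (e θ - 1) * ∑ n ∈ range N, e (θ * n + b) = e (θ * N + b) - e b := by
    intro N
    induction N with
    | zero => simp
    | succ N ih =>
      rw [sum_range_succ, mul_add, ih]
      have e2 : e (θ * (N + 1 : ℕ) + b) = e θ * e (θ * N + b) := by
        rw [← e_add]
        congr 1
        push_cast
        ring
      rw [e2]
      ring
  have hn0 : 0 < ‖e θ - 1‖ := norm_pos_iff.2 hne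
  refine ⟨2 / ‖e θ - 1‖, by positivity, fun N => ?_⟩
  rw [le_div_iff₀ hn0, mul_comm, ← norm_mul, hgeo]
  refine (norm_sub_le _ _).trans ?_
  rw [norm_e, norm_e]
  norm_num

/-- the cells of the grid -/
theorem cells {n : ℕ} (hn : 1 ≤ n) {α β : Fin n → ℝ}
    (h : ∀ g : Fin n → ℤ, g ≠ 0 → ∀ k : ℤ, ∑ j, (g j : ℝ) * α j ≠ k)
    {q : ℕ} (hq : 1 ≤ q) {δ : ℝ} (hδ : 0 < δ) : ∃ M₀ : ℕ, ∀ M : ℕ, M₀ ≤ M → ∀ ρ : Fin n → ℤ,
      (1 / (q : ℝ) ^ n - δ) * M ≤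
        (((range M).filter
          (fun m : ℕ => ∀ j, (q : ℤ) ∣ ⌊(q : ℝ) * (α j * m + β j)⌋ - ρ j)).card : ℝ) := by
  classical
  have hq0 : (0 : ℝ) < q := by exact_mod_cast hq
  obtain ⟨K, hK⟩ := exists_nat_ge (3 * (q : ℝ) + 1 + 2 * (q : ℝ) ^ n * (3 * n + 4) / δ)
  have hp0 : 0 ≤ 2 * (q : ℝ) ^ n * (3 * n + 4) / δ := by positivity
  have hK0 : (0 : ℝ) < K := lt_of_lt_of_le (by positivity) hK
  have hKn : 1 ≤ K := by exact_mod_cast hK0
  have h3q : 3 * q ≤ K := by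
    have : 3 * (q : ℝ) ≤ K := by linarith
    exact_mod_cast this
  have hKδ : (q : ℝ) ^ n * ((3 * n + 4) / K) ≤ δ / 2 := by
    have h1 : 2 * (q : ℝ) ^ n * (3 * n + 4) / δ ≤ K := by linarith
    rw [div_le_iff₀ hδ] at h1
    rw [← mul_div_assoc, div_le_iff₀ hK0]
    nlinarith
  obtain ⟨E, hE⟩ : ∃ E : ℝ, E = δ / 2 / ((q : ℝ) ^ n * (K : ℝ) ^ (3 * n)) := ⟨_, rfl⟩
  have hE0 : 0 < E := by rw [hE]; positivity
  obtain ⟨B, hB⟩ : ∃ B : Finset (Fin n → ℤ), B = Fintype.piFinset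
    (fun _ => Finset.Ioo (-((K : ℤ) ^ 3)) ((K : ℤ) ^ 3)) := ⟨_, rfl⟩
  have hev : ∀ᶠ M : ℕ in atTop, ∀ g ∈ B, g ≠ 0 →
      ‖∑ m ∈ range M, e (∑ j, (g j : ℝ) * (α j * m + β j))‖ ≤ E * M := by
    rw [Filter.eventually_all_finset]
    intro g _
    by_cases hg : g ≠ 0
    · obtain ⟨C, hC0, hC⟩ := lin_sum (θ := ∑ j, (g j : ℝ) * α j) (h g hg)
        (∑ j, (g j : ℝ) * β j)
      have h1 : ∀ᶠ M : ℕ in atTop, C / E ≤ (M : ℝ) :=
        tendsto_natCast_atTop_atTop.eventually_ge_atTop _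
      filter_upwards [h1] with M hM _
      rw [div_le_iff₀ hE0] at hM
      have e1 : ∀ m : ℕ, ∑ j, (g j : ℝ) * (α j * m + β j) =
          (∑ j, (g j : ℝ) * α j) * m + ∑ j, (g j : ℝ) * β j := by
        intro m
        rw [sum_mul, ← sum_add_distrib]
        exact sum_congr rfl fun j _ => by ring
      simp only [e1]
      calc _ ≤ C := hC M
        _ ≤ _ := by linarith
    · exact Eventually.of_forall fun N hg' => absurd hg' hg
  obtain ⟨M₀, hM₀⟩ := eventually_atTop.1 hev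
  refine ⟨M₀, fun M hM ρ => ?_⟩
  have h1 := discJ (r := n) hn (range M) (fun (m : ℕ) j => (q : ℝ) * (α j * m + β j)) K q
    hKn hq h3q (E * M) (by positivity) (by
      intro g hg hgK
      have h3 := hM₀ M hM g (by
        rw [hB]
        exact Fintype.mem_piFinset.2 fun k => by
          have h2 := hgK k
          rw [Finset.mem_Ioo, ← abs_lt, Int.abs_eq_natAbs]
          exact_mod_cast h2) hg
      refine le_trans (le_of_eq ?_) h3
      congr 1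
      refine sum_congr rfl fun m _ => ?_
      congr 1
      refine sum_congr rfl fun j _ => ?_
      field_simp) ρ
  have h3 := (abs_le.1 h1).1
  rw [card_range] at h3
  have h4 : (q : ℝ) ^ n * ((3 * n + 4) * (M : ℝ) / K + (K : ℝ) ^ (3 * n) * (E * M)) =
      ((q : ℝ) ^ n * ((3 * n + 4) / K) + (q : ℝ) ^ n * (K : ℝ) ^ (3 * n) * E) * M := by
    ring
  rw [h4] at h3
  have h5 : (q : ℝ) ^ n * (K : ℝ) ^ (3 * n) * E = δ / 2 := by
    rw [hE]
    field_simp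
  rw [h5] at h3
  have h6 : ((q : ℝ) ^ n * ((3 * n + 4) / K) + δ / 2) * (M : ℝ) ≤ δ * M :=
    mul_le_mul_of_nonneg_right (by linarith) (Nat.cast_nonneg _)
  have h7 : (1 / (q : ℝ) ^ n - δ) * (M : ℝ) = M / (q : ℝ) ^ n - δ * M := by ring
  rw [h7]
  linarith

/-- **Products of arcs** -/
theorem arcs {n : ℕ} {α β a b : Fin n → ℝ}
    (h : ∀ g : Fin n → ℤ, g ≠ 0 → ∀ k : ℤ, ∑ j, (g j : ℝ) * α j ≠ k)
    (hab : ∀ j, a j < b j) (hab1 : ∀ j, b j ≤ a j + 1) {ε : ℝ} (hε : 0 < ε) :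
    ∃ M₀ : ℕ, ∀ M : ℕ, M₀ ≤ M → (∏ j, (b j - a j) - ε) * M ≤
      (Set.ncard {m : ℕ | m < M ∧ ∀ j, ∃ z : ℤ, a j < α j * m + β j - z ∧
        α j * m + β j - z < b j} : ℝ) := by
  classical
  have hset : ∀ M : ℕ, {m : ℕ | m < M ∧ ∀ j, ∃ z : ℤ, a j < α j * m + β j - z ∧
        α j * m + β j - z < b j} = (((range M).filter (fun m : ℕ => ∀ j, ∃ z : ℤ,
          a j < α j * m + β j - z ∧ α j * m + β j - z < b j) : Finset ℕ) : Set ℕ) := by
    intro M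
    ext m
    simp only [Set.mem_setOf_eq, Finset.coe_filter, Finset.mem_range]
  simp only [hset, Set.ncard_coe_finset]
  rcases Nat.eq_zero_or_pos n with hn | hn
  · subst hn
    refine ⟨0, fun M _ => ?_⟩
    rw [filter_true_of_mem (fun m _ j => j.elim0), card_range]
    simp only [univ_eq_empty, prod_empty]
    have : (0 : ℝ) ≤ M := Nat.cast_nonneg M
    nlinarith
  have ht : Tendsto (fun q : ℕ => ∏ j, (b j - a j - 2 / (q : ℝ))) atTop
      (nhds (∏ j, (b j - a j))) := by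
    apply tendsto_finsetProd
    intro j _
    have := (tendsto_const_div_atTop_nhds_zero_nat (2 : ℝ)).const_sub (b j - a j)
    simpa using this
  have h1 : ∀ᶠ q : ℕ in atTop, ∏ j, (b j - a j) - ε / 2 ≤ ∏ j, (b j - a j - 2 / (q : ℝ)) := by
    filter_upwards [ht.eventually (lt_mem_nhds
      (show ∏ j, (b j - a j) - ε / 2 < ∏ j, (b j - a j) by linarith))] with q hq
    exact hq.le
  have h2 : ∀ᶠ q : ℕ in atTop, ∀ j, 2 / (q : ℝ) ≤ b j - a j := by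
    rw [Filter.eventually_all]
    intro j
    have := (tendsto_const_div_atTop_nhds_zero_nat (2 : ℝ)).eventually
      (gt_mem_nhds (show (0 : ℝ) < b j - a j by linarith [hab j]))
    filter_upwards [this] with q hq
    exact hq.le
  obtain ⟨q, hq1, hq2, hq3⟩ := (h1.and (h2.and (eventually_ge_atTop 1))).exists
  have hq0 : (0 : ℝ) < q := by exact_mod_cast hq3
  obtain ⟨M₀, hM₀⟩ := cells (β := β) hn h hq3 (δ := ε / 2 / (q : ℝ) ^ n) (by positivity)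
  obtain ⟨C, hC⟩ : ∃ C : Fin n → Finset ℤ,
      ∀ j, C j = Icc (⌊(q : ℝ) * a j⌋ + 1) (⌊(q : ℝ) * b j⌋ - 1) := ⟨_, fun j => rfl⟩
  have hfl : ∀ j, (⌊(q : ℝ) * b j⌋ : ℝ) ≤ q * b j ∧ q * b j - 1 < (⌊(q : ℝ) * b j⌋ : ℝ) ∧
      (⌊(q : ℝ) * a j⌋ : ℝ) ≤ q * a j ∧ q * a j - 1 < (⌊(q : ℝ) * a j⌋ : ℝ) :=
    fun j => ⟨Int.floor_le _, Int.sub_one_lt_floor _, Int.floor_le _, Int.sub_one_lt_floor _⟩
  have hAB : ∀ j, ⌊(q : ℝ) * b j⌋ - 1 - ⌊(q : ℝ) * a j⌋ ≤ (q : ℤ) := by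
    intro j
    obtain ⟨h3, -, -, h4⟩ := hfl j
    have h7 : q * b j ≤ q * a j + q := by nlinarith [hab1 j]
    have : ((⌊(q : ℝ) * b j⌋ - 1 - ⌊(q : ℝ) * a j⌋ : ℤ) : ℝ) ≤ ((q : ℤ) : ℝ) := by
      push_cast
      linarith
    exact_mod_cast this
  have hCl : ∀ j, b j - a j - 2 / (q : ℝ) ≤ ((C j).card : ℝ) / q := by
    intro j
    rw [le_div_iff₀ hq0]
    obtain ⟨-, h3, h4, -⟩ := hfl j
    have h5 : ((⌊(q : ℝ) * b j⌋ - 1 + 1 - (⌊(q : ℝ) * a j⌋ + 1) : ℤ) : ℝ) ≤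
        ((C j).card : ℝ) := by
      rw [hC, Int.card_Icc]
      exact_mod_cast Int.self_le_toNat _
    have h6 : (b j - a j - 2 / (q : ℝ)) * q = q * b j - q * a j - 2 := by field_simp
    rw [h6]
    push_cast at h5
    linarith
  have hCu : ∀ j, ((C j).card : ℝ) / q ≤ 1 := by
    intro j
    rw [div_le_one hq0]
    have h5 := hAB j
    have h6 : (C j).card ≤ q := by
      rw [hC, Int.card_Icc]
      omega
    exact_mod_cast h6
  obtain ⟨P, hP⟩ : ∃ P : Finset (Fin n → ℤ), P = Fintype.piFinset C := ⟨_, rfl⟩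
  obtain ⟨p, hp⟩ : ∃ p : ℝ, p = ∏ j, (((C j).card : ℝ) / q) := ⟨_, rfl⟩
  have hPc : (P.card : ℝ) = p * (q : ℝ) ^ n := by
    rw [hP, Fintype.card_piFinset, hp, prod_div_distrib, prod_const, card_univ,
      Fintype.card_fin]
    push_cast
    field_simp
  have hpl : ∏ j, (b j - a j) - ε / 2 ≤ p := by
    refine hq1.trans ?_
    rw [hp]
    exact prod_le_prod (fun j _ => by linarith [hq2 j]) (fun j _ => hCl j)
  have hpu : p ≤ 1 := by
    rw [hp]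
    exact prod_le_one (fun j _ => by positivity) (fun j _ => hCu j)
  refine ⟨M₀, fun M hM => ?_⟩
  obtain ⟨S, hS⟩ : ∃ S : (Fin n → ℤ) → Finset ℕ, ∀ ρ, S ρ = (range M).filter
      (fun m : ℕ => ∀ j, (q : ℤ) ∣ ⌊(q : ℝ) * (α j * m + β j)⌋ - ρ j) := ⟨_, fun ρ => rfl⟩
  have hmemC : ∀ ρ ∈ P, ∀ j, ⌊(q : ℝ) * a j⌋ + 1 ≤ ρ j ∧ ρ j ≤ ⌊(q : ℝ) * b j⌋ - 1 := by
    intro ρ hρ j
    rw [hP, Fintype.mem_piFinset] at hρ
    have := hρ j
    rw [hC, mem_Icc] at this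
    exact this
  have hdisj : ∀ ρ ∈ P, ∀ ρ' ∈ P, ρ ≠ ρ' → Disjoint (S ρ) (S ρ') := by
    intro ρ hρ ρ' hρ' hne
    rw [Finset.disjoint_left]
    intro m hm hm'
    rw [hS, mem_filter] at hm hm'
    obtain ⟨j, hj⟩ := Function.ne_iff.1 hne
    have h3 := dvd_sub (hm'.2 j) (hm.2 j)
    rw [show ⌊(q : ℝ) * (α j * m + β j)⌋ - ρ' j - (⌊(q : ℝ) * (α j * m + β j)⌋ - ρ j) =
      ρ j - ρ' j by ring] at h3
    have h4 := hmemC ρ hρ j
    have h5 := hmemC ρ' hρ' j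
    have h6 := hAB j
    have h7 : |ρ j - ρ' j| < (q : ℤ) := by
      rw [abs_lt]
      have : (1 : ℤ) ≤ q := by exact_mod_cast hq3
      constructor <;> omega
    have h8 := Int.eq_zero_of_abs_lt_dvd h3 h7
    omega
  have hsub : P.biUnion S ⊆ (range M).filter (fun m : ℕ => ∀ j, ∃ z : ℤ,
      a j < α j * m + β j - z ∧ α j * m + β j - z < b j) := by
    intro m hm
    rw [mem_biUnion] at hm
    obtain ⟨ρ, hρ, hm⟩ := hm
    rw [hS, mem_filter] at hm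
    rw [mem_filter]
    refine ⟨hm.1, fun j => ?_⟩
    obtain ⟨z, hz⟩ := hm.2 j
    obtain ⟨h3, h4⟩ := hmemC ρ hρ j
    obtain ⟨h5, h6, h7, h8⟩ := hfl j
    have h9 := Int.floor_le ((q : ℝ) * (α j * m + β j))
    have h10 := Int.lt_floor_add_one ((q : ℝ) * (α j * m + β j))
    have h11 : (⌊(q : ℝ) * (α j * m + β j)⌋ : ℝ) = q * z + ρ j := by
      have : ⌊(q : ℝ) * (α j * m + β j)⌋ = q * z + ρ j := by linarith
      exact_mod_cast this
    have h12 := Int.lt_floor_add_one ((q : ℝ) * a j)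
    have h13 : (⌊(q : ℝ) * a j⌋ : ℝ) + 1 ≤ ρ j := by exact_mod_cast h3
    have h14 : (ρ j : ℝ) ≤ (⌊(q : ℝ) * b j⌋ : ℝ) - 1 := by exact_mod_cast h4
    rw [h11] at h9 h10
    refine ⟨z, ?_, ?_⟩
    · have : q * a j < q * (α j * m + β j - z) := by nlinarith
      exact lt_of_mul_lt_mul_left this hq0.le
    · have : q * (α j * m + β j - z) < q * b j := by nlinarith
      exact lt_of_mul_lt_mul_left this hq0.le
  have hM0 : (0 : ℝ) ≤ M := Nat.cast_nonneg M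
  have h15 : (P.card : ℝ) * ((1 / (q : ℝ) ^ n - ε / 2 / (q : ℝ) ^ n) * M) ≤
      (((range M).filter (fun m : ℕ => ∀ j, ∃ z : ℤ,
        a j < α j * m + β j - z ∧ α j * m + β j - z < b j)).card : ℝ) := by
    calc (P.card : ℝ) * ((1 / (q : ℝ) ^ n - ε / 2 / (q : ℝ) ^ n) * M)
        = ∑ _ρ ∈ P, ((1 / (q : ℝ) ^ n - ε / 2 / (q : ℝ) ^ n) * M) := by
          rw [sum_const, nsmul_eq_mul]
      _ ≤ ∑ ρ ∈ P, ((S ρ).card : ℝ) := sum_le_sum fun ρ _ => by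
          rw [hS]
          exact hM₀ M hM ρ
      _ = ((P.biUnion S).card : ℝ) := by
          rw [card_biUnion hdisj]
          push_cast
          rfl
      _ ≤ _ := by exact_mod_cast card_le_card hsub
  refine le_trans ?_ h15
  rw [hPc]
  have hqn : (0 : ℝ) < (q : ℝ) ^ n := by positivity
  have e1 : p * (q : ℝ) ^ n * ((1 / (q : ℝ) ^ n - ε / 2 / (q : ℝ) ^ n) * M) =
      (p - p * ε / 2) * M := by
    field_simp
  rw [e1]
  apply mul_le_mul_of_nonneg_right _ hM0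
  nlinarith

end Pool.Agent.L0h79.SN
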