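import Pool.Agent.L0h79.SN.Sim

set_option autoImplicit false

/-! # Several numbers of points at once: mixed conditions -/

namespace Pool.Agent.L0h79.SN

open Finset Filter

/-- the product formula, with a kernel function -/
theorem product_ker {s c : ℕ → ℕ} (hcs : ∀ r, c r ^ 2 * s r = r) (hs : ∀ r, Squarefree (s r))
    {T : Finset ℕ} (hns : ∀ r ∈ T, ¬ IsSquare r)
    (hinj : ∀ r ∈ T, ∀ r' ∈ T, s r = s r' → r = r') {a b : ℕ → ℝ}
    (hab : ∀ r ∈ T, a r < b r ∧ b r ≤ a r + 1) {ε : ℝ} (hε : 0 < ε) :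
    ∃ M₀ : ℕ, ∀ M : ℕ, M₀ ≤ M → (∏ r ∈ T, (b r - a r) - ε) * M ≤
      (Set.ncard {m : ℕ | m < M ∧ ∀ r ∈ T, ∃ z : ℤ, a r < √(r : ℝ) * m + √(r : ℝ) / 2 - z ∧
        √(r : ℝ) * m + √(r : ℝ) / 2 - z < b r} : ℝ) := by
  classical
  refine product_gen (G := fun r m => ∃ z : ℤ, a r < √(r : ℝ) * m + √(r : ℝ) / 2 - z ∧
        √(r : ℝ) * m + √(r : ℝ) / 2 - z < b r) hns ?_ hab (fun r _ m h => h) hε
  -- different kernels
  intro r hr r' hr' hne hsq
  apply hne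
  apply hinj r hr r' hr'
  -- the product of the kernels is a square
  have hc : c r ≠ 0 := by
    intro h0
    apply hns r hr
    rw [← hcs r, h0]
    exact ⟨0, by simp⟩
  have hc' : c r' ≠ 0 := by
    intro h0
    apply hns r' hr'
    rw [← hcs r', h0]
    exact ⟨0, by simp⟩
  obtain ⟨x, hx⟩ := hsq
  have h1 : (c r * c r') ^ 2 * (s r * s r') = x ^ 2 := by
    rw [pow_two x, ← hx]
    conv_rhs => rw [← hcs r, ← hcs r']
    ring
  have h2 : c r * c r' ∣ x := by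
    rw [← Nat.pow_dvd_pow_iff two_ne_zero]
    exact ⟨_, h1.symm⟩
  obtain ⟨y, hy⟩ := h2
  have h3 : s r * s r' = y ^ 2 := by
    have h4 : (c r * c r') ^ 2 * (s r * s r') = (c r * c r') ^ 2 * y ^ 2 := by
      rw [h1, hy]
      ring
    exact Nat.eq_of_mul_eq_mul_left (by positivity) h4
  -- squarefree numbers with a square product
  have key : ∀ u v : ℕ, Squarefree u → Squarefree v → u * v = y ^ 2 → u ∣ v := by
    intro u v hu hv huv
    have h5 : ∀ p : ℕ, p.Prime → p ∣ u → p ∣ v := by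
      intro p hp hpu
      have h6 : p ∣ y := hp.dvd_of_dvd_pow (huv ▸ Dvd.dvd.mul_right hpu v)
      have h7 : p * p ∣ u * v := by
        rw [huv, pow_two]
        exact mul_dvd_mul h6 h6
      by_contra hpv
      have h8 : p * p ∣ u :=
        Nat.Coprime.dvd_of_dvd_mul_right
          (Nat.Coprime.mul_left ((Nat.Prime.coprime_iff_not_dvd hp).2 hpv)
            ((Nat.Prime.coprime_iff_not_dvd hp).2 hpv)) h7
      exact hp.one_lt.ne' (Nat.isUnit_iff.1 (hu p h8))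
    rw [← Nat.prod_primeFactors_of_squarefree hu]
    apply Finset.prod_primes_dvd
    · intro p hp
      exact (Nat.prime_of_mem_primeFactors hp).prime
    · intro p hp
      exact h5 p (Nat.prime_of_mem_primeFactors hp) (Nat.dvd_of_mem_primeFactors hp)
  exact Nat.dvd_antisymm (key _ _ (hs r) (hs r') h3)
    (key _ _ (hs r') (hs r) (by rw [mul_comm]; exact h3))

/-- **Mixed conditions**: arcs for the members of `T₁`, small neighbourhoods of zero for the members of `T₂` -/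
theorem positive_mixed {G : ℕ → ℕ → Prop} {T₁ T₂ : Finset ℕ} (h1 : ∀ r ∈ T₁, ¬ IsSquare r)
    (h2 : ∀ r ∈ T₂, ¬ IsSquare r)
    (h11 : ∀ r ∈ T₁, ∀ r' ∈ T₁, r ≠ r' → ¬ IsSquare (r * r'))
    (h12 : ∀ r ∈ T₁, ∀ r' ∈ T₂, ¬ IsSquare (r * r')) {a b : ℕ → ℝ}
    (hab : ∀ r ∈ T₁, a r < b r ∧ b r ≤ a r + 1) {ρ : ℝ} (hρ : 0 < ρ)
    (hG1 : ∀ r ∈ T₁, ∀ m : ℕ, (∃ z : ℤ, a r < √(r : ℝ) * m + √(r : ℝ) / 2 - z ∧
      √(r : ℝ) * m + √(r : ℝ) / 2 - z < b r) → G r m)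
    (hG2 : ∀ r ∈ T₂, ∀ m : ℕ, (∃ z : ℤ, -ρ < √(r : ℝ) * m + √(r : ℝ) / 2 - z ∧
      √(r : ℝ) * m + √(r : ℝ) / 2 - z < ρ) → G r m) :
    ∃ κ : ℝ, 0 < κ ∧ ∃ M₀ : ℕ, ∀ M : ℕ, M₀ ≤ M → κ * M ≤
      (Set.ncard {m : ℕ | m < M ∧ (∀ r ∈ T₁, G r m) ∧ ∀ r ∈ T₂, G r m} : ℝ) := by
  classical
  have h0 : ∀ r : ℕ, ∃ s c : ℕ, c ^ 2 * s = r ∧ Squarefree s := fun r => Nat.sq_mul_squarefree r
  choose s c hcs hs using h0
  have hss : ∀ k : ℕ, Squarefree k → s k = k := by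
    intro k hk
    have h3 : c k * c k ∣ k := ⟨s k, by rw [← pow_two]; exact (hcs k).symm⟩
    have h4 : c k = 1 := Nat.isUnit_iff.1 (hk _ h3)
    have h5 := hcs k
    rw [h4] at h5
    simpa using h5
  have hsame : ∀ r r' : ℕ, s r = s r' → IsSquare (r * r') := by
    intro r r' h
    rw [← hcs r, ← hcs r', h]
    exact ⟨c r * c r' * s r', by ring⟩
  obtain ⟨C, hC⟩ : ∃ C : ℕ, ∀ r ∈ T₂, c r ≤ C := ⟨T₂.sup c, fun r hr => le_sup hr⟩
  obtain ⟨K, hK⟩ : ∃ K : Finset ℕ, K = T₂.image s := ⟨_, rfl⟩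
  obtain ⟨τ, hτ⟩ : ∃ τ : ℝ, τ = min (1 / 2) (ρ / (C + 1)) := ⟨_, rfl⟩
  have hC0 : (0 : ℝ) < C + 1 := by positivity
  have hτ0 : 0 < τ := by rw [hτ]; exact lt_min (by norm_num) (by positivity)
  have hτ1 : τ ≤ 1 / 2 := by rw [hτ]; exact min_le_left _ _
  have hτ2 : (C + 1) * τ ≤ ρ := by
    have : τ ≤ ρ / (C + 1) := by rw [hτ]; exact min_le_right _ _
    rw [le_div_iff₀ hC0] at this
    linarith
  have hKmem : ∀ k ∈ K, ∃ r ∈ T₂, s r = k := by
    intro k hk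
    rw [hK, mem_image] at hk
    exact hk
  have hKT : ∀ k ∈ K, k ∉ T₁ := by
    intro k hk hk1
    obtain ⟨r, hr, rfl⟩ := hKmem k hk
    exact h12 _ hk1 r hr (hsame _ _ (hss _ (hs r)))
  obtain ⟨a', ha'⟩ : ∃ a' : ℕ → ℝ, ∀ r, a' r = if r ∈ T₁ then a r else -τ := ⟨_, fun r => rfl⟩
  obtain ⟨b', hb'⟩ : ∃ b' : ℕ → ℝ, ∀ r, b' r = if r ∈ T₁ then b r else τ := ⟨_, fun r => rfl⟩
  have hab' : ∀ r : ℕ, a' r < b' r ∧ b' r ≤ a' r + 1 := by
    intro r
    rw [ha', hb']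
    split_ifs with h
    · exact hab r h
    · constructor <;> linarith
  have hprod : 0 < ∏ r ∈ T₁ ∪ K, (b' r - a' r) := prod_pos fun r _ => by linarith [(hab' r).1]
  obtain ⟨M₀, hM₀⟩ := product_ker hcs hs (T := T₁ ∪ K) (a := a') (b := b')
    (by
      intro r hr hsq
      rcases mem_union.1 hr with h | h
      · exact h1 r h hsq
      · obtain ⟨r', hr', rfl⟩ := hKmem r h
        apply h2 r' hr'
        obtain ⟨x, hx⟩ := hsq
        rw [← hcs r', hx]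
        exact ⟨c r' * x, by ring⟩)
    (by
      intro r hr r' hr' h
      by_contra hne
      rcases mem_union.1 hr with h3 | h3 <;> rcases mem_union.1 hr' with h4 | h4
      · exact h11 r h3 r' h4 hne (hsame _ _ h)
      · obtain ⟨t, ht, rfl⟩ := hKmem r' h4
        rw [hss _ (hs t)] at h
        exact h12 r h3 t ht (hsame _ _ h)
      · obtain ⟨t, ht, rfl⟩ := hKmem r h3
        rw [hss _ (hs t)] at h
        exact h12 r' h4 t ht (hsame _ _ h.symm)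
      · obtain ⟨t, ht, rfl⟩ := hKmem r h3
        obtain ⟨t', ht', rfl⟩ := hKmem r' h4
        rw [hss _ (hs t), hss _ (hs t')] at h
        exact hne h)
    (fun r _ => hab' r) (half_pos hprod)
  refine ⟨(∏ r ∈ T₁ ∪ K, (b' r - a' r)) / 2, half_pos hprod, M₀, fun M hM => ?_⟩
  have h3 := hM₀ M hM
  have e1 : ∏ r ∈ T₁ ∪ K, (b' r - a' r) - (∏ r ∈ T₁ ∪ K, (b' r - a' r)) / 2 =
      (∏ r ∈ T₁ ∪ K, (b' r - a' r)) / 2 := by ring
  rw [e1] at h3
  refine h3.trans ?_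
  have hfin : {m : ℕ | m < M ∧ (∀ r ∈ T₁, G r m) ∧ ∀ r ∈ T₂, G r m}.Finite :=
    (Set.finite_Iio M).subset fun m hm => hm.1
  have hsub : {m : ℕ | m < M ∧ ∀ r ∈ T₁ ∪ K, ∃ z : ℤ,
      a' r < √(r : ℝ) * m + √(r : ℝ) / 2 - z ∧
        √(r : ℝ) * m + √(r : ℝ) / 2 - z < b' r} ⊆
      {m : ℕ | m < M ∧ (∀ r ∈ T₁, G r m) ∧ ∀ r ∈ T₂, G r m} := by
    rintro m ⟨hm, hm'⟩
    refine ⟨hm, fun r hr => hG1 r hr m ?_, fun r hr => hG2 r hr m ?_⟩
    · obtain ⟨z, h4, h5⟩ := hm' r (mem_union_left _ hr)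
      rw [ha', if_pos hr] at h4
      rw [hb', if_pos hr] at h5
      exact ⟨z, h4, h5⟩
    · have hk : s r ∈ K := by rw [hK]; exact mem_image_of_mem _ hr
      obtain ⟨z, h4, h5⟩ := hm' (s r) (mem_union_right _ hk)
      rw [ha', if_neg (hKT _ hk)] at h4
      rw [hb', if_neg (hKT _ hk)] at h5
      have hr' : √(r : ℝ) = c r * √(s r : ℝ) := by
        conv_lhs => rw [← hcs r]
        push_cast
        rw [Real.sqrt_mul (by positivity), Real.sqrt_sq (Nat.cast_nonneg _)]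
      have hc : (c r : ℝ) ≤ C := by exact_mod_cast hC r hr
      have hc0 : (0 : ℝ) ≤ c r := Nat.cast_nonneg _
      have e2 : √(r : ℝ) * m + √(r : ℝ) / 2 - ((c r * z : ℤ) : ℝ) =
          c r * (√(s r : ℝ) * m + √(s r : ℝ) / 2 - z) := by
        rw [hr']
        push_cast
        ring
      refine ⟨c r * z, ?_, ?_⟩
      · rw [e2]
        nlinarith
      · rw [e2]
        nlinarith
  exact_mod_cast Set.ncard_le_ncard hsub hfin

end Pool.Agent.L0h79.SN
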