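import Pool.Agent.L0h79.SN.Sim
import Pool.Agent.H767R2.Weyl

set_option autoImplicit false

/-! # Joint distribution modulo one along sequences with small Weyl sums

Some of the lemmas are copied from `N141.SG` (starting library), to keep the imports small.
-/

namespace Pool.Agent.L0h79.SN

open Finset Filter
open Pool.Agent.H469R2.NK (e norm_e e_add conj_e)
open Pool.Agent.Y961.JR (discJ)

/-- exponential sums of smaller order -/
def SmallTo (s : ℕ → Finset ℕ) (x : ℕ → ℝ) : Prop :=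
  ∀ ε : ℝ, 0 < ε → ∀ᶠ N : ℕ in atTop, ‖∑ n ∈ s N, e (x n)‖ ≤ ε * (s N).card

theorem SmallTo.add_const {s : ℕ → Finset ℕ} {x : ℕ → ℝ} (h : SmallTo s x) (b : ℝ) :
    SmallTo s (fun n => x n + b) := by
  intro ε hε
  filter_upwards [h ε hε] with N hN
  have e1 : ∑ n ∈ s N, e (x n + b) = (∑ n ∈ s N, e (x n)) * e b := by
    rw [sum_mul]
    exact sum_congr rfl fun n _ => e_add _ _
  rw [e1, norm_mul, norm_e, mul_one]
  exact hN

/-- boxes modulo one in several dimensions -/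
theorem boxesR {r : ℕ} (hr : 1 ≤ r) {s : ℕ → Finset ℕ} {x : ℕ → Fin r → ℝ}
    (h : ∀ g : Fin r → ℤ, g ≠ 0 → SmallTo s (fun n => ∑ j, (g j : ℝ) * x n j))
    {q : ℕ} (hq : 1 ≤ q) {δ : ℝ} (hδ : 0 < δ) : ∀ᶠ N : ℕ in atTop, ∀ ρ : Fin r → ℤ,
      (1 / (q : ℝ) ^ r - δ) * (s N).card ≤
        (((s N).filter (fun n => ∀ j, (q : ℤ) ∣ ⌊(q : ℝ) * x n j⌋ - ρ j)).card : ℝ) := by
  classical
  have hq0 : (0 : ℝ) < q := by exact_mod_cast hq
  obtain ⟨K, hK⟩ := exists_nat_ge (3 * (q : ℝ) + 1 + 2 * (q : ℝ) ^ r * (3 * r + 4) / δ)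
  have hp0 : 0 ≤ 2 * (q : ℝ) ^ r * (3 * r + 4) / δ := by positivity
  have hK0 : (0 : ℝ) < K := lt_of_lt_of_le (by positivity) hK
  have hKn : 1 ≤ K := by exact_mod_cast hK0
  have h3q : 3 * q ≤ K := by
    have : 3 * (q : ℝ) ≤ K := by linarith
    exact_mod_cast this
  have hKδ : (q : ℝ) ^ r * ((3 * r + 4) / K) ≤ δ / 2 := by
    have h1 : 2 * (q : ℝ) ^ r * (3 * r + 4) / δ ≤ K := by linarith
    rw [div_le_iff₀ hδ] at h1
    rw [← mul_div_assoc, div_le_iff₀ hK0]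
    nlinarith
  set E : ℝ := δ / 2 / ((q : ℝ) ^ r * (K : ℝ) ^ (3 * r)) with hE
  have hE0 : 0 < E := by positivity
  set B : Finset (Fin r → ℤ) := Fintype.piFinset
    (fun _ => Finset.Ioo (-((K : ℤ) ^ 3)) ((K : ℤ) ^ 3)) with hB
  have hev : ∀ᶠ N : ℕ in atTop, ∀ g ∈ B, g ≠ 0 →
      ‖∑ n ∈ s N, e (∑ j, (g j : ℝ) * x n j)‖ ≤ E * (s N).card := by
    rw [Filter.eventually_all_finset]
    intro g _
    by_cases hg : g ≠ 0
    · filter_upwards [h g hg E hE0] with N hN _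
      exact hN
    · exact Eventually.of_forall fun N hg' => absurd hg' hg
  filter_upwards [hev] with N hN ρ
  have h1 := discJ (r := r) hr (s N) (fun n j => (q : ℝ) * x n j) K q
    hKn hq h3q (E * (s N).card) (by positivity) (by
      intro g hg hgK
      have h3 := hN g (Fintype.mem_piFinset.2 fun k => by
        have h2 := hgK k
        rw [Finset.mem_Ioo, ← abs_lt, Int.abs_eq_natAbs]
        exact_mod_cast h2) hg
      refine le_trans (le_of_eq ?_) h3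
      congr 1
      refine sum_congr rfl fun n _ => ?_
      congr 1
      refine sum_congr rfl fun j _ => ?_
      field_simp) ρ
  have h3 := (abs_le.1 h1).1
  have h4 : (q : ℝ) ^ r * ((3 * r + 4) * (s N).card / K + (K : ℝ) ^ (3 * r) * (E * (s N).card)) =
      ((q : ℝ) ^ r * ((3 * r + 4) / K) + (q : ℝ) ^ r * (K : ℝ) ^ (3 * r) * E) * (s N).card := by
    ring
  rw [h4] at h3
  have h5 : (q : ℝ) ^ r * (K : ℝ) ^ (3 * r) * E = δ / 2 := by
    rw [hE]
    field_simp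
  rw [h5] at h3
  have h6 : ((q : ℝ) ^ r * ((3 * r + 4) / K) + δ / 2) * (s N).card ≤ δ * (s N).card :=
    mul_le_mul_of_nonneg_right (by linarith) (Nat.cast_nonneg _)
  have h7 : (1 / (q : ℝ) ^ r - δ) * (s N).card = (s N).card / (q : ℝ) ^ r - δ * (s N).card := by ring
  rw [h7]
  linarith


theorem ee_eq (t : ℝ) : Pool.Agent.H767R2.ee t = e t := by
  unfold Pool.Agent.H767R2.ee Pool.Agent.H469R2.NK.e
  congr 1
  push_cast
  ring

/-- Weyl sums of integral polynomials at irrational frequencies -/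
theorem smallTo_poly {Q : Polynomial ℤ} (hQ : 1 ≤ Q.natDegree) {θ : ℝ} (hθ : Irrational θ) :
    SmallTo (fun N => Ioc N (2 * N)) (fun n => θ * ((Q.eval (n : ℤ) : ℤ) : ℝ)) := by
  set β : Polynomial ℝ := Polynomial.C θ * Q.map (Int.castRingHom ℝ) with hβ
  have hval : ∀ n : ℕ, β.eval (n : ℝ) = θ * ((Q.eval (n : ℤ) : ℤ) : ℝ) := by
    intro n
    rw [hβ, Polynomial.eval_mul, Polynomial.eval_C]
    congr 1
    have := Polynomial.eval_map (Int.castRingHom ℝ) (p := Q) ((n : ℤ) : ℝ)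
    have h2 := Polynomial.eval_intCast_map (Int.castRingHom ℝ) Q (n : ℤ)
    simpa using h2
  have hirr : ∃ i, 1 ≤ i ∧ Irrational (β.coeff i) := by
    refine ⟨Q.natDegree, hQ, ?_⟩
    rw [hβ, Polynomial.coeff_C_mul, Polynomial.coeff_map]
    have h1 : Q.coeff Q.natDegree ≠ 0 := by
      rw [Polynomial.coeff_natDegree, Polynomial.leadingCoeff_ne_zero]
      rintro rfl
      simp at hQ
    simpa using hθ.mul_intCast h1
  have h1 := Pool.Agent.H767R2.weyl_poly β hirr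
  rw [Pool.Agent.H767R2.tendsto_cav_iff] at h1
  intro ε hε
  have h2 := (h1.eventually (gt_mem_nhds (show (0 : ℝ) < ε / 8 by positivity)))
  obtain ⟨M, hM⟩ := eventually_atTop.1 h2
  filter_upwards [eventually_ge_atTop (max M 1)] with N hN
  have hNM : M ≤ N := (le_max_left _ _).trans hN
  have hN1 : 1 ≤ N := (le_max_right _ _).trans hN
  have hNr : (1 : ℝ) ≤ N := by exact_mod_cast hN1
  have key : ∀ K : ℕ, N ≤ K → ‖∑ n ∈ range K, e (θ * ((Q.eval (n : ℤ) : ℤ) : ℝ))‖ ≤ ε / 8 * K := by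
    intro K hK
    have h3 := hM K (hNM.trans hK)
    have hK0 : (0 : ℝ) < K := lt_of_lt_of_le (by linarith) (show (N : ℝ) ≤ K by exact_mod_cast hK)
    rw [div_lt_iff₀ hK0] at h3
    have e1 : ∑ n ∈ range K, e (θ * ((Q.eval (n : ℤ) : ℤ) : ℝ)) =
        ∑ n ∈ range K, Pool.Agent.H767R2.ee (β.eval (n : ℝ)) :=
      sum_congr rfl fun n _ => by rw [ee_eq, hval]
    rw [e1]
    exact h3.le
  have e2 : ∑ n ∈ Ioc N (2 * N), e (θ * ((Q.eval (n : ℤ) : ℤ) : ℝ)) =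
      ∑ n ∈ range (2 * N + 1), e (θ * ((Q.eval (n : ℤ) : ℤ) : ℝ)) -
        ∑ n ∈ range (N + 1), e (θ * ((Q.eval (n : ℤ) : ℤ) : ℝ)) := by
    rw [eq_sub_iff_add_eq, add_comm]
    have h5 : range (2 * N + 1) = range (N + 1) ∪ Ioc N (2 * N) := by
      ext y
      simp only [Finset.mem_range, Finset.mem_union, Finset.mem_Ioc]
      omega
    rw [h5, sum_union]
    rw [Finset.disjoint_left]
    intro y hy hy2
    rw [Finset.mem_range] at hy
    rw [Finset.mem_Ioc] at hy2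
    omega
  rw [e2, Nat.card_Ioc, show 2 * N - N = N by omega]
  refine (norm_sub_le _ _).trans ?_
  have k1 := key (2 * N + 1) (by omega)
  have k2 := key (N + 1) (by omega)
  push_cast at k1 k2
  nlinarith

/-- the values of an integral polynomial with positive leading coefficient are large -/
theorem poly_large {Q : Polynomial ℤ} (hQ : 1 ≤ Q.natDegree) (hl : 0 < Q.leadingCoeff) :
    ∀ᶠ N : ℕ in atTop, ∀ t ∈ Ioc N (2 * N), 1 ≤ Q.eval (t : ℤ) := by
  have h1 : Tendsto (fun x : ℝ => (Q.map (Int.castRingHom ℝ)).eval x) atTop atTop := by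
    apply Polynomial.tendsto_atTop_of_leadingCoeff_nonneg
    · rw [Polynomial.degree_map_eq_of_injective (RingHom.injective_int _)]
      rw [Polynomial.natDegree_pos_iff_degree_pos.symm]
      omega
    · rw [Polynomial.leadingCoeff_map_of_injective (RingHom.injective_int _)]
      have : (0 : ℝ) ≤ (Q.leadingCoeff : ℝ) := by exact_mod_cast hl.le
      simpa using this
  have h2 := (h1.comp tendsto_natCast_atTop_atTop).eventually_ge_atTop 1
  obtain ⟨M, hM⟩ := eventually_atTop.1 h2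
  filter_upwards [eventually_ge_atTop M] with N hN t ht
  have h3 := hM t (hN.trans (Finset.mem_Ioc.1 ht).1.le)
  have h4 := Polynomial.eval_intCast_map (Int.castRingHom ℝ) Q (t : ℤ)
  simp only [Function.comp_apply] at h3
  have h5 : (Q.map (Int.castRingHom ℝ)).eval (t : ℝ) = ((Q.eval (t : ℤ) : ℤ) : ℝ) := by
    simpa using h4
  rw [h5] at h3
  exact_mod_cast h3

/-- progressions of difference `q` with arbitrary first terms -/
theorem smallTo_prog {q : ℕ} (hq : 1 ≤ q) (m₀ : ℕ → ℕ) {θ : ℝ} (hθ : Irrational θ) :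
    SmallTo (fun L => (range L).image fun i => m₀ L + q * i) (fun n => θ * ((n : ℤ) : ℝ)) := by
  have hβ : ∀ k : ℤ, θ * q ≠ k := by
    intro k hk
    have h1 : Irrational (θ * q) := hθ.mul_natCast (show q ≠ 0 by omega)
    exact h1 ⟨k, by rw [hk]; simp⟩
  obtain ⟨C, hC0, hC⟩ := lin_sum hβ 0
  intro ε hε
  filter_upwards [tendsto_natCast_atTop_atTop.eventually_ge_atTop (C / ε)] with L hL
  have hinj : Function.Injective (fun i => m₀ L + q * i) := by
    intro i j hij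
    have h1 : q * i = q * j := by
      have : m₀ L + q * i = m₀ L + q * j := hij
      omega
    exact Nat.eq_of_mul_eq_mul_left (by omega) h1
  rw [card_image_of_injective _ hinj, card_range, sum_image fun i _ j _ h => hinj h]
  have e1 : ∑ i ∈ range L, e (θ * (((m₀ L + q * i : ℕ) : ℤ) : ℝ)) =
      (∑ i ∈ range L, e (θ * q * i + 0)) * e (θ * m₀ L) := by
    rw [sum_mul]
    refine sum_congr rfl fun i _ => ?_
    rw [← e_add]
    congr 1
    push_cast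
    ring
  rw [e1, norm_mul, norm_e, mul_one]
  refine (hC L).trans ?_
  rw [div_le_iff₀ hε] at hL
  linarith

/-- **Products of arcs** -/
theorem arcsx {n : ℕ} {s : ℕ → Finset ℕ} {x : ℕ → Fin n → ℝ} {a b : Fin n → ℝ}
    (h : ∀ g : Fin n → ℤ, g ≠ 0 → SmallTo s (fun m => ∑ j, (g j : ℝ) * x m j))
    (hab : ∀ j, a j < b j) (hab1 : ∀ j, b j ≤ a j + 1) {ε : ℝ} (hε : 0 < ε) :
    ∀ᶠ M : ℕ in atTop, (∏ j, (b j - a j) - ε) * ((s M).card : ℝ) ≤
      (Set.ncard {m : ℕ | m ∈ s M ∧ ∀ j, ∃ z : ℤ, a j < x m j - z ∧ x m j - z < b j} : ℝ) := by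
  classical
  have hset : ∀ M : ℕ, {m : ℕ | m ∈ s M ∧ ∀ j, ∃ z : ℤ, a j < x m j - z ∧
        x m j - z < b j} = (((s M).filter (fun m : ℕ => ∀ j, ∃ z : ℤ,
          a j < x m j - z ∧ x m j - z < b j) : Finset ℕ) : Set ℕ) := by
    intro M
    ext m
    simp only [Set.mem_setOf_eq, Finset.coe_filter]
  simp only [hset, Set.ncard_coe_finset]
  rcases Nat.eq_zero_or_pos n with hn | hn
  · subst hn
    refine Eventually.of_forall fun M => ?_
    rw [filter_true_of_mem (fun m _ j => j.elim0)]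
    simp only [univ_eq_empty, prod_empty]
    have : (0 : ℝ) ≤ ((s M).card : ℝ) := Nat.cast_nonneg _
    nlinarith
  have ht : Tendsto (fun q : ℕ => ∏ j, (b j - a j - 2 / (q : ℝ))) atTop
      (nhds (∏ j, (b j - a j))) := by
    apply tendsto_finsetProd
    intro j _
    have := (tendsto_const_div_atTop_nhds_zero_nat (2 : ℝ)).const_sub (b j - a j)
    simpa using this
  have h1 : ∀ᶠ q : ℕ in atTop, ∏ j, (b j - a j) - ε / 2 ≤ ∏ j, (b j - a j - 2 / (q : ℝ)) := by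
    filter_upwards [ht.eventually (lt_mem_nhds
      (show ∏ j, (b j - a j) - ε / 2 < ∏ j, (b j - a j) by linarith))] with q hq
    exact hq.le
  have h2 : ∀ᶠ q : ℕ in atTop, ∀ j, 2 / (q : ℝ) ≤ b j - a j := by
    rw [Filter.eventually_all]
    intro j
    have := (tendsto_const_div_atTop_nhds_zero_nat (2 : ℝ)).eventually
      (gt_mem_nhds (show (0 : ℝ) < b j - a j by linarith [hab j]))
    filter_upwards [this] with q hq
    exact hq.le
  obtain ⟨q, hq1, hq2, hq3⟩ := (h1.and (h2.and (eventually_ge_atTop 1))).exists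
  have hq0 : (0 : ℝ) < q := by exact_mod_cast hq3
  have hM₀ := boxesR hn h hq3 (δ := ε / 2 / (q : ℝ) ^ n) (by positivity)
  obtain ⟨C, hC⟩ : ∃ C : Fin n → Finset ℤ,
      ∀ j, C j = Icc (⌊(q : ℝ) * a j⌋ + 1) (⌊(q : ℝ) * b j⌋ - 1) := ⟨_, fun j => rfl⟩
  have hfl : ∀ j, (⌊(q : ℝ) * b j⌋ : ℝ) ≤ q * b j ∧ q * b j - 1 < (⌊(q : ℝ) * b j⌋ : ℝ) ∧
      (⌊(q : ℝ) * a j⌋ : ℝ) ≤ q * a j ∧ q * a j - 1 < (⌊(q : ℝ) * a j⌋ : ℝ) :=
    fun j => ⟨Int.floor_le _, Int.sub_one_lt_floor _, Int.floor_le _, Int.sub_one_lt_floor _⟩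
  have hAB : ∀ j, ⌊(q : ℝ) * b j⌋ - 1 - ⌊(q : ℝ) * a j⌋ ≤ (q : ℤ) := by
    intro j
    obtain ⟨h3, -, -, h4⟩ := hfl j
    have h7 : q * b j ≤ q * a j + q := by nlinarith [hab1 j]
    have : ((⌊(q : ℝ) * b j⌋ - 1 - ⌊(q : ℝ) * a j⌋ : ℤ) : ℝ) ≤ ((q : ℤ) : ℝ) := by
      push_cast
      linarith
    exact_mod_cast this
  have hCl : ∀ j, b j - a j - 2 / (q : ℝ) ≤ ((C j).card : ℝ) / q := by
    intro j
    rw [le_div_iff₀ hq0]
    obtain ⟨-, h3, h4, -⟩ := hfl j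
    have h5 : ((⌊(q : ℝ) * b j⌋ - 1 + 1 - (⌊(q : ℝ) * a j⌋ + 1) : ℤ) : ℝ) ≤
        ((C j).card : ℝ) := by
      rw [hC, Int.card_Icc]
      exact_mod_cast Int.self_le_toNat _
    have h6 : (b j - a j - 2 / (q : ℝ)) * q = q * b j - q * a j - 2 := by field_simp
    rw [h6]
    push_cast at h5
    linarith
  have hCu : ∀ j, ((C j).card : ℝ) / q ≤ 1 := by
    intro j
    rw [div_le_one hq0]
    have h5 := hAB j
    have h6 : (C j).card ≤ q := by
      rw [hC, Int.card_Icc]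
      omega
    exact_mod_cast h6
  obtain ⟨P, hP⟩ : ∃ P : Finset (Fin n → ℤ), P = Fintype.piFinset C := ⟨_, rfl⟩
  obtain ⟨p, hp⟩ : ∃ p : ℝ, p = ∏ j, (((C j).card : ℝ) / q) := ⟨_, rfl⟩
  have hPc : (P.card : ℝ) = p * (q : ℝ) ^ n := by
    rw [hP, Fintype.card_piFinset, hp, prod_div_distrib, prod_const, card_univ,
      Fintype.card_fin]
    push_cast
    field_simp
  have hpl : ∏ j, (b j - a j) - ε / 2 ≤ p := by
    refine hq1.trans ?_
    rw [hp]
    exact prod_le_prod (fun j _ => by linarith [hq2 j]) (fun j _ => hCl j)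
  have hpu : p ≤ 1 := by
    rw [hp]
    exact prod_le_one (fun j _ => by positivity) (fun j _ => hCu j)
  filter_upwards [hM₀] with M hM
  obtain ⟨S, hS⟩ : ∃ S : (Fin n → ℤ) → Finset ℕ, ∀ ρ, S ρ = (s M).filter
      (fun m : ℕ => ∀ j, (q : ℤ) ∣ ⌊(q : ℝ) * x m j⌋ - ρ j) := ⟨_, fun ρ => rfl⟩
  have hmemC : ∀ ρ ∈ P, ∀ j, ⌊(q : ℝ) * a j⌋ + 1 ≤ ρ j ∧ ρ j ≤ ⌊(q : ℝ) * b j⌋ - 1 := by
    intro ρ hρ j
    rw [hP, Fintype.mem_piFinset] at hρ
    have := hρ j
    rw [hC, mem_Icc] at this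
    exact this
  have hdisj : ∀ ρ ∈ P, ∀ ρ' ∈ P, ρ ≠ ρ' → Disjoint (S ρ) (S ρ') := by
    intro ρ hρ ρ' hρ' hne
    rw [Finset.disjoint_left]
    intro m hm hm'
    rw [hS, mem_filter] at hm hm'
    obtain ⟨j, hj⟩ := Function.ne_iff.1 hne
    have h3 := dvd_sub (hm'.2 j) (hm.2 j)
    rw [show ⌊(q : ℝ) * x m j⌋ - ρ' j - (⌊(q : ℝ) * x m j⌋ - ρ j) =
      ρ j - ρ' j by ring] at h3
    have h4 := hmemC ρ hρ j
    have h5 := hmemC ρ' hρ' j
    have h6 := hAB j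
    have h7 : |ρ j - ρ' j| < (q : ℤ) := by
      rw [abs_lt]
      have : (1 : ℤ) ≤ q := by exact_mod_cast hq3
      constructor <;> omega
    have h8 := Int.eq_zero_of_abs_lt_dvd h3 h7
    omega
  have hsub : P.biUnion S ⊆ (s M).filter (fun m : ℕ => ∀ j, ∃ z : ℤ,
      a j < x m j - z ∧ x m j - z < b j) := by
    intro m hm
    rw [mem_biUnion] at hm
    obtain ⟨ρ, hρ, hm⟩ := hm
    rw [hS, mem_filter] at hm
    rw [mem_filter]
    refine ⟨hm.1, fun j => ?_⟩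
    obtain ⟨z, hz⟩ := hm.2 j
    obtain ⟨h3, h4⟩ := hmemC ρ hρ j
    obtain ⟨h5, h6, h7, h8⟩ := hfl j
    have h9 := Int.floor_le ((q : ℝ) * x m j)
    have h10 := Int.lt_floor_add_one ((q : ℝ) * x m j)
    have h11 : (⌊(q : ℝ) * x m j⌋ : ℝ) = q * z + ρ j := by
      have : ⌊(q : ℝ) * x m j⌋ = q * z + ρ j := by linarith
      exact_mod_cast this
    have h12 := Int.lt_floor_add_one ((q : ℝ) * a j)
    have h13 : (⌊(q : ℝ) * a j⌋ : ℝ) + 1 ≤ ρ j := by exact_mod_cast h3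
    have h14 : (ρ j : ℝ) ≤ (⌊(q : ℝ) * b j⌋ : ℝ) - 1 := by exact_mod_cast h4
    rw [h11] at h9 h10
    refine ⟨z, ?_, ?_⟩
    · have : q * a j < q * (x m j - z) := by nlinarith
      exact lt_of_mul_lt_mul_left this hq0.le
    · have : q * (x m j - z) < q * b j := by nlinarith
      exact lt_of_mul_lt_mul_left this hq0.le
  have hM0 : (0 : ℝ) ≤ ((s M).card : ℝ) := Nat.cast_nonneg _
  have h15 : (P.card : ℝ) * ((1 / (q : ℝ) ^ n - ε / 2 / (q : ℝ) ^ n) * ((s M).card : ℝ)) ≤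
      (((s M).filter (fun m : ℕ => ∀ j, ∃ z : ℤ,
        a j < x m j - z ∧ x m j - z < b j)).card : ℝ) := by
    calc (P.card : ℝ) * ((1 / (q : ℝ) ^ n - ε / 2 / (q : ℝ) ^ n) * ((s M).card : ℝ))
        = ∑ _ρ ∈ P, ((1 / (q : ℝ) ^ n - ε / 2 / (q : ℝ) ^ n) * ((s M).card : ℝ)) := by
          rw [sum_const, nsmul_eq_mul]
      _ ≤ ∑ ρ ∈ P, ((S ρ).card : ℝ) := sum_le_sum fun ρ _ => by
          rw [hS]
          exact hM ρ
      _ = ((P.biUnion S).card : ℝ) := by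
          rw [card_biUnion hdisj]
          push_cast
          rfl
      _ ≤ _ := by exact_mod_cast card_le_card hsub
  refine le_trans ?_ h15
  rw [hPc]
  have hqn : (0 : ℝ) < (q : ℝ) ^ n := by positivity
  have e1 : p * (q : ℝ) ^ n * ((1 / (q : ℝ) ^ n - ε / 2 / (q : ℝ) ^ n) * ((s M).card : ℝ)) =
      (p - p * ε / 2) * ((s M).card : ℝ) := by
    field_simp
  rw [e1]
  apply mul_le_mul_of_nonneg_right _ hM0
  nlinarith

/-- the frequencies are irrational and algebraic -/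
theorem freq {n : ℕ} {r : Fin n → ℕ} (hr : ∀ i, ¬ IsSquare (r i))
    (hrr : ∀ i j, i ≠ j → ¬ IsSquare (r i * r j)) (g : Fin n → ℤ) (hg : g ≠ 0) :
    Irrational (∑ j, (g j : ℝ) * √(r j : ℝ)) ∧ IsAlgebraic ℤ (∑ j, (g j : ℝ) * √(r j : ℝ)) := by
  constructor
  · rintro ⟨p, hp⟩
    have hd : (p.den : ℤ) ≠ 0 := by exact_mod_cast p.den_ne_zero
    apply sqrt_not_int hr hrr (fun j => (p.den : ℤ) * g j) (by
      intro h0
      apply hg
      funext j
      have h3 := congrFun h0 j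
      simp only [Pi.zero_apply, mul_eq_zero] at h3
      rcases h3 with h3 | h3
      · exact absurd h3 hd
      · exact h3) p.num
    have h1 : ((p.num : ℤ) : ℝ) = (p.den : ℝ) * (p : ℝ) := by
      have h2 : ((p.num : ℤ) : ℚ) = (p.den : ℚ) * p := by
        rw [mul_comm, Rat.mul_den_eq_num]
      exact_mod_cast h2
    rw [h1, hp, mul_sum]
    refine sum_congr rfl fun j _ => ?_
    push_cast
    ring
  · have h1 : IsIntegral ℤ (∑ j, (g j : ℝ) * √(r j : ℝ)) := by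
      refine IsIntegral.sum _ fun j _ => IsIntegral.mul ?_ ?_
      · exact_mod_cast (isIntegral_algebraMap (R := ℤ) (A := ℝ) (x := g j))
      · refine IsIntegral.of_pow (n := 2) (by norm_num) ?_
        rw [Real.sq_sqrt (Nat.cast_nonneg _)]
        exact_mod_cast (isIntegral_algebraMap (R := ℤ) (A := ℝ) (x := (r j : ℤ)))
    exact h1.isAlgebraic

/-- **the product formula along a sequence** -/
theorem product_seq {s : ℕ → Finset ℕ} {v : ℕ → ℤ}
    (hv : ∀ θ : ℝ, Irrational θ → IsAlgebraic ℤ θ → SmallTo s (fun n => θ * (v n : ℝ)))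
    {T : Finset ℕ} (hns : ∀ r ∈ T, ¬ IsSquare r)
    (hTT : ∀ r ∈ T, ∀ r' ∈ T, r ≠ r' → ¬ IsSquare (r * r')) {a b : ℕ → ℝ}
    (hab : ∀ r ∈ T, a r < b r ∧ b r ≤ a r + 1) {ε : ℝ} (hε : 0 < ε) :
    ∀ᶠ M : ℕ in atTop, (∏ r ∈ T, (b r - a r) - ε) * ((s M).card : ℝ) ≤
      (Set.ncard {m : ℕ | m ∈ s M ∧ ∀ r ∈ T, ∃ z : ℤ, a r < √(r : ℝ) * (v m : ℝ) + √(r : ℝ) / 2 - z ∧
        √(r : ℝ) * (v m : ℝ) + √(r : ℝ) / 2 - z < b r} : ℝ) := by
  classical
  obtain ⟨f, hf⟩ : ∃ f : Fin T.card → ℕ, (∀ j, f j ∈ T) ∧ Function.Injective f ∧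
      ∀ r ∈ T, ∃ j, f j = r := by
    refine ⟨fun j => (T.equivFin.symm j : ℕ), fun j => (T.equivFin.symm j).2, ?_, ?_⟩
    · intro i j hij
      exact T.equivFin.symm.injective (Subtype.ext hij)
    · intro r hr
      exact ⟨T.equivFin ⟨r, hr⟩, by simp⟩
  obtain ⟨hf1, hf2, hf3⟩ := hf
  have h0 := arcsx (n := T.card) (s := s)
    (x := fun m j => √(f j : ℝ) * (v m : ℝ) + √(f j : ℝ) / 2)
    (a := fun j => a (f j)) (b := fun j => b (f j)) (by
      intro g hg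
      obtain ⟨h1, h2⟩ := freq (fun i => hns _ (hf1 i))
        (fun i j hij => hTT _ (hf1 i) _ (hf1 j) (fun h => hij (hf2 h))) g hg
      have h3 := (hv _ h1 h2).add_const (∑ j, (g j : ℝ) * (√(f j : ℝ) / 2))
      have e1 : (fun m : ℕ => ∑ j, (g j : ℝ) * (√(f j : ℝ) * (v m : ℝ) + √(f j : ℝ) / 2)) =
          fun m : ℕ => (∑ j, (g j : ℝ) * √(f j : ℝ)) * (v m : ℝ) +
            ∑ j, (g j : ℝ) * (√(f j : ℝ) / 2) := by
        funext m
        rw [sum_mul, ← sum_add_distrib]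
        exact sum_congr rfl fun j _ => by ring
      rw [e1]
      exact h3)
    (fun j => (hab _ (hf1 j)).1) (fun j => (hab _ (hf1 j)).2) hε
  filter_upwards [h0] with M h1
  have e1 : ∏ r ∈ T, (b r - a r) = ∏ j, (b (f j) - a (f j)) := by
    have himg : T = univ.image f := by
      ext r
      rw [mem_image]
      constructor
      · intro hr
        obtain ⟨j, hj⟩ := hf3 r hr
        exact ⟨j, mem_univ _, hj⟩
      · rintro ⟨j, -, rfl⟩
        exact hf1 j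
    conv_lhs => rw [himg]
    rw [prod_image (fun i _ j _ hij => hf2 hij)]
  rw [e1]
  refine h1.trans ?_
  have hfin : {m : ℕ | m ∈ s M ∧ ∀ r ∈ T, ∃ z : ℤ,
      a r < √(r : ℝ) * (v m : ℝ) + √(r : ℝ) / 2 - z ∧
        √(r : ℝ) * (v m : ℝ) + √(r : ℝ) / 2 - z < b r}.Finite :=
    (Finset.finite_toSet (s M)).subset fun m hm => hm.1
  have hsub : {m : ℕ | m ∈ s M ∧ ∀ j : Fin T.card, ∃ z : ℤ,
      a (f j) < √(f j : ℝ) * (v m : ℝ) + √(f j : ℝ) / 2 - z ∧
        √(f j : ℝ) * (v m : ℝ) + √(f j : ℝ) / 2 - z < b (f j)} ⊆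
      {m : ℕ | m ∈ s M ∧ ∀ r ∈ T, ∃ z : ℤ,
        a r < √(r : ℝ) * (v m : ℝ) + √(r : ℝ) / 2 - z ∧
        √(r : ℝ) * (v m : ℝ) + √(r : ℝ) / 2 - z < b r} := by
    rintro m ⟨hm, hm'⟩
    refine ⟨hm, fun r hr => ?_⟩
    obtain ⟨j, rfl⟩ := hf3 r hr
    exact hm' j
  exact_mod_cast Set.ncard_le_ncard hsub hfin

end Pool.Agent.L0h79.SN
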