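import Pool.Agent.H383.LinIndep
import Pool.Agent.H852.NB.Equi
import Pool.Agent.L0h79.SN.Eq

set_option autoImplicit false

/-! # Several numbers of points at once: the counting arguments -/

namespace Pool.Agent.L0h79.SN

open Finset Filter

/-- squarefree radicands -/
theorem sf_not_int {n : ℕ} {f : Fin n → ℕ} (hf : Function.Injective f)
    (hsf : ∀ i, Squarefree (f i)) (h1 : ∀ i, f i ≠ 1) (g : Fin n → ℤ) (hg : g ≠ 0) (k : ℤ) :
    ∑ j, (g j : ℝ) * √(f j : ℝ) ≠ k := by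
  intro hk
  apply hg
  obtain ⟨F, hF⟩ : ∃ F : Option (Fin n) → {s : ℕ // Squarefree s},
      (∀ j, F (some j) = ⟨f j, hsf j⟩) ∧ F none = ⟨1, squarefree_one⟩ :=
    ⟨fun o => o.elim ⟨1, squarefree_one⟩ (fun j => ⟨f j, hsf j⟩), fun j => rfl, rfl⟩
  have hinj : Function.Injective F := by
    intro x y hxy
    rcases x with _ | x <;> rcases y with _ | y
    · rfl
    · rw [hF.1, hF.2] at hxy
      exact absurd (congrArg Subtype.val hxy).symm (h1 y)
    · rw [hF.1, hF.2] at hxy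
      exact absurd (congrArg Subtype.val hxy) (h1 x)
    · rw [hF.1, hF.1] at hxy
      rw [hf (congrArg Subtype.val hxy)]
  have h2 : LinearIndependent ℚ (fun o : Option (Fin n) => √(((F o : ℕ)) : ℝ)) :=
    Pool.Agent.H383.Gauss.sf_indep.comp F hinj
  rw [Fintype.linearIndependent_iff] at h2
  have h3 := h2 (fun o => o.elim (-(k : ℚ)) (fun j => (g j : ℚ))) (by
    rw [Fintype.sum_option]
    simp only [Option.elim_none, Option.elim_some, hF.1, hF.2, Nat.cast_one, Real.sqrt_one]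
    have e1 : ∀ j : Fin n, (g j : ℚ) • √(f j : ℝ) = (g j : ℝ) * √(f j : ℝ) := by
      intro j
      rw [Rat.smul_def]
      push_cast
      rfl
    simp only [e1]
    rw [hk, Rat.smul_def]
    push_cast
    ring)
  funext j
  have h4 := h3 (some j)
  simp only [Option.elim_some] at h4
  exact_mod_cast h4

/-- radicands whose products in pairs are not squares -/
theorem sqrt_not_int {n : ℕ} {r : Fin n → ℕ} (hr : ∀ i, ¬ IsSquare (r i))
    (hrr : ∀ i j, i ≠ j → ¬ IsSquare (r i * r j)) (g : Fin n → ℤ) (hg : g ≠ 0) (k : ℤ) :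
    ∑ j, (g j : ℝ) * √(r j : ℝ) ≠ k := by
  have h1 : ∀ j, ∃ s c : ℕ, c ^ 2 * s = r j ∧ Squarefree s := fun j => Nat.sq_mul_squarefree (r j)
  choose s c hcs hs using h1
  have hc : ∀ j, c j ≠ 0 := by
    intro j h0
    apply hr j
    rw [← hcs j, h0]
    exact ⟨0, by simp⟩
  have hinj : Function.Injective s := by
    intro i j hij
    by_contra hne
    apply hrr i j hne
    rw [← hcs i, ← hcs j, hij]
    exact ⟨c i * c j * s j, by ring⟩
  have hs1 : ∀ j, s j ≠ 1 := by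
    intro j h0
    apply hr j
    rw [← hcs j, h0]
    exact ⟨c j, by ring⟩
  have h2 := sf_not_int hinj hs hs1 (fun j => g j * (c j : ℤ)) (by
    intro h0
    apply hg
    funext j
    have h3 := congrFun h0 j
    simp only [Pi.zero_apply, mul_eq_zero, Int.natCast_eq_zero] at h3
    rcases h3 with h3 | h3
    · exact h3
    · exact absurd h3 (hc j)) k
  intro h4
  apply h2
  rw [← h4]
  refine sum_congr rfl fun j _ => ?_
  rw [← hcs j]
  push_cast
  rw [Real.sqrt_mul (by positivity), Real.sqrt_sq (Nat.cast_nonneg _)]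
  ring

/-- the product formula for arbitrary arcs -/
theorem product_gen {G : ℕ → ℕ → Prop} {T : Finset ℕ} (hns : ∀ r ∈ T, ¬ IsSquare r)
    (hTT : ∀ r ∈ T, ∀ r' ∈ T, r ≠ r' → ¬ IsSquare (r * r')) {a b : ℕ → ℝ}
    (hab : ∀ r ∈ T, a r < b r ∧ b r ≤ a r + 1)
    (hG : ∀ r ∈ T, ∀ m : ℕ, (∃ z : ℤ, a r < √(r : ℝ) * m + √(r : ℝ) / 2 - z ∧
      √(r : ℝ) * m + √(r : ℝ) / 2 - z < b r) → G r m) {ε : ℝ} (hε : 0 < ε) :
    ∃ M₀ : ℕ, ∀ M : ℕ, M₀ ≤ M → (∏ r ∈ T, (b r - a r) - ε) * M ≤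
      (Set.ncard {m : ℕ | m < M ∧ ∀ r ∈ T, G r m} : ℝ) := by
  classical
  obtain ⟨f, hf⟩ : ∃ f : Fin T.card → ℕ, (∀ j, f j ∈ T) ∧ Function.Injective f ∧
      ∀ r ∈ T, ∃ j, f j = r := by
    refine ⟨fun j => (T.equivFin.symm j : ℕ), fun j => (T.equivFin.symm j).2, ?_, ?_⟩
    · intro i j hij
      exact T.equivFin.symm.injective (Subtype.ext hij)
    · intro r hr
      exact ⟨T.equivFin ⟨r, hr⟩, by simp⟩
  obtain ⟨hf1, hf2, hf3⟩ := hf
  obtain ⟨M₀, hM₀⟩ := arcs (n := T.card) (α := fun j => √(f j : ℝ)) (β := fun j => √(f j : ℝ) / 2)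
    (a := fun j => a (f j)) (b := fun j => b (f j))
    (fun g hg k => sqrt_not_int (fun i => hns _ (hf1 i))
      (fun i j hij => hTT _ (hf1 i) _ (hf1 j) (fun h => hij (hf2 h))) g hg k)
    (fun j => (hab _ (hf1 j)).1) (fun j => (hab _ (hf1 j)).2) hε
  refine ⟨M₀, fun M hM => ?_⟩
  have h1 := hM₀ M hM
  have e1 : ∏ r ∈ T, (b r - a r) = ∏ j, (b (f j) - a (f j)) := by
    have himg : T = univ.image f := by
      ext r
      rw [mem_image]
      constructor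
      · intro hr
        obtain ⟨j, hj⟩ := hf3 r hr
        exact ⟨j, mem_univ _, hj⟩
      · rintro ⟨j, -, rfl⟩
        exact hf1 j
    conv_lhs => rw [himg]
    rw [prod_image (fun i _ j _ hij => hf2 hij)]
  rw [e1]
  refine h1.trans ?_
  have hfin : {m : ℕ | m < M ∧ ∀ r ∈ T, G r m}.Finite :=
    (Set.finite_Iio M).subset fun m hm => hm.1
  have hsub : {m : ℕ | m < M ∧ ∀ j : Fin T.card, ∃ z : ℤ,
      a (f j) < √(f j : ℝ) * m + √(f j : ℝ) / 2 - z ∧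
        √(f j : ℝ) * m + √(f j : ℝ) / 2 - z < b (f j)} ⊆ {m : ℕ | m < M ∧ ∀ r ∈ T, G r m} := by
    rintro m ⟨hm, hm'⟩
    refine ⟨hm, fun r hr => ?_⟩
    obtain ⟨j, rfl⟩ := hf3 r hr
    exact hG _ (hf1 j) m (hm' j)
  exact_mod_cast Set.ncard_le_ncard hsub hfin

/-- **All lengths at once**: the multiplicities for one large number of points -/
theorem uniform_gen {G : ℕ → ℕ → Prop} (hsq : ∀ r m : ℕ, 10 ≤ r → IsSquare r → G r m)
    (hsm : ∀ r m : ℕ, 10 ≤ r → (m : ℝ) ≤ r - 6 * √(r : ℝ) + 11 → G r m)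
    (hlg : ∀ ε : ℝ, 0 < ε → ∃ N : ℕ, 10 ≤ N ∧ ∀ r : ℕ, N ≤ r → ∀ m : ℕ,
      (∀ d : ℕ, ε ≤ |2 * (d : ℝ) + 3 - √(r : ℝ) - 2 * (√(r : ℝ) * m)|) → G r m)
    {ε : ℝ} (hε : 0 < ε) : ∃ N : ℕ, 10 ≤ N ∧ ∀ r : ℕ, N ≤ r → ∀ M : ℕ,
      (Set.ncard {m : ℕ | m < M ∧ ¬ G r m} : ℝ) ≤ ε * M := by
  classical
  obtain ⟨η, hη⟩ : ∃ η, η = min (ε / 3) 1 := ⟨_, rfl⟩
  have hη0 : 0 < η := by
    rw [hη]
    exact lt_min (by positivity) one_pos
  have hη1 : η ≤ 1 := by rw [hη]; exact min_le_right _ _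
  have hη3 : 3 * η ≤ ε := by
    have : η ≤ ε / 3 := by rw [hη]; exact min_le_left _ _
    linarith
  obtain ⟨N, hN10, hN⟩ := hlg η hη0
  obtain ⟨Q, hQ⟩ := exists_nat_ge (1 / η)
  obtain ⟨N', hN'⟩ := exists_nat_ge ((12 * (Q : ℝ) ^ 2 + 6) ^ 2)
  refine ⟨max N N', hN10.trans (le_max_left _ _), fun r hr M => ?_⟩
  have hr1 : N ≤ r := (le_max_left _ _).trans hr
  have hr2 : N' ≤ r := (le_max_right _ _).trans hr
  have hr10 : 10 ≤ r := hN10.trans hr1
  have hM0 : (0 : ℝ) ≤ M := Nat.cast_nonneg M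
  have hempty : (∀ m : ℕ, m < M → G r m) →
      (Set.ncard {m : ℕ | m < M ∧ ¬ G r m} : ℝ) ≤ ε * M := by
    intro h
    have : {m : ℕ | m < M ∧ ¬ G r m} = ∅ := by
      rw [Set.eq_empty_iff_forall_notMem]
      rintro m ⟨hm, hm'⟩
      exact hm' (h m hm)
    rw [this, Set.ncard_empty, Nat.cast_zero]
    positivity
  by_cases hsqr : IsSquare r
  · exact hempty fun m _ => hsq r m hr10 hsqr
  rcases le_or_gt (M : ℝ) (r - 6 * √(r : ℝ) + 11) with h | h
  · refine hempty fun m hm => hsm r m hr10 (le_trans ?_ h)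
    exact_mod_cast hm.le
  have hrR : (12 * (Q : ℝ) ^ 2 + 6) ^ 2 ≤ r := hN'.trans (by exact_mod_cast hr2)
  have hs : 12 * (Q : ℝ) ^ 2 + 6 ≤ √(r : ℝ) := Real.le_sqrt_of_sq_le hrR
  have hss : √(r : ℝ) * √(r : ℝ) = r := Real.mul_self_sqrt (Nat.cast_nonneg _)
  have hs0 : 0 ≤ √(r : ℝ) := Real.sqrt_nonneg _
  have hM' : 12 * √(r : ℝ) * (Q : ℝ) ^ 2 ≤ M := by nlinarith
  have hgood : ∀ m : ℕ, ¬ G r m →
      ∃ d : ℕ, |2 * (d : ℝ) + 3 - √(r : ℝ) - 2 * (√(r : ℝ) * m)| < η := by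
    intro m hbad
    by_contra hcon
    push Not at hcon
    exact hbad (hN r hr1 m hcon)
  have hset : {m : ℕ | m < M ∧ ¬ G r m} =
      ↑((Finset.range M).filter fun m => ¬ G r m) := by
    ext m
    simp only [Set.mem_setOf_eq, Finset.coe_filter, Finset.mem_range]
  rw [hset, Set.ncard_coe_finset]
  have hfin : (((Finset.range M).filter fun m => ¬ G r m).card : ℝ) ≤ 3 * η * M :=
    Pool.Agent.H852.NB.count_uniform hsqr hη0 hη1 hQ hM'
      (fun m hm => Finset.mem_range.1 (Finset.mem_filter.1 hm).1)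
      (fun m hm => hgood m (Finset.mem_filter.1 hm).2)
  exact hfin.trans (mul_le_mul_of_nonneg_right hη3 hM0)

/-- sparse sets of numbers of points -/
theorem sparse_gen {G : ℕ → ℕ → Prop}
    (hu : ∀ ε : ℝ, 0 < ε → ∃ N : ℕ, 10 ≤ N ∧ ∀ r : ℕ, N ≤ r → ∀ M : ℕ,
      (Set.ncard {m : ℕ | m < M ∧ ¬ G r m} : ℝ) ≤ ε * M) {ε : ℝ} (hε : 0 < ε) :
    ∃ N : ℕ → ℕ, (∀ i, 10 ≤ N i) ∧ ∀ r : ℕ → ℕ, (∀ i, N i ≤ r i) → ∀ M : ℕ,
      (Set.ncard {m : ℕ | m < M ∧ ∃ i, ¬ G (r i) m} : ℝ) ≤ ε * M := by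
  classical
  have h1 : ∀ i : ℕ, ∃ N : ℕ, 10 ≤ N ∧ ∀ r : ℕ, N ≤ r → ∀ M : ℕ,
      (Set.ncard {m : ℕ | m < M ∧ ¬ G r m} : ℝ) ≤ ε / 2 / 2 ^ i * M :=
    fun i => hu _ (by positivity)
  choose N hN10 hN using h1
  refine ⟨N, hN10, fun r hr M => ?_⟩
  have hfin : {m : ℕ | m < M ∧ ∃ i, ¬ G (r i) m}.Finite :=
    (Set.finite_Iio M).subset fun m hm => hm.1
  have h2 : ∀ m : ℕ, ∃ i : ℕ, (∃ i, ¬ G (r i) m) → ¬ G (r i) m := by
    intro m
    by_cases h : ∃ i, ¬ G (r i) m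
    · obtain ⟨i, hi⟩ := h
      exact ⟨i, fun _ => hi⟩
    · exact ⟨0, fun h' => absurd h' h⟩
  choose w hw using h2
  obtain ⟨L, hL⟩ : ∃ L : ℕ, ∀ m : ℕ, m < M → w m < L := by
    refine ⟨(range M).sup w + 1, fun m hm => ?_⟩
    have : w m ≤ (range M).sup w := le_sup (mem_range.2 hm)
    omega
  have hsub : {m : ℕ | m < M ∧ ∃ i, ¬ G (r i) m} ⊆
      ⋃ i ∈ range L, {m : ℕ | m < M ∧ ¬ G (r i) m} := by
    rintro m ⟨hm, hm'⟩
    simp only [Set.mem_iUnion]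
    exact ⟨w m, mem_range.2 (hL m hm), hm, hw m hm'⟩
  have hfin2 : (⋃ i ∈ range L, {m : ℕ | m < M ∧ ¬ G (r i) m}).Finite :=
    Set.Finite.biUnion (finite_toSet (range L)) fun i _ =>
      (Set.finite_Iio M).subset fun m hm => hm.1
  have h3 : Set.ncard {m : ℕ | m < M ∧ ∃ i, ¬ G (r i) m} ≤
      ∑ i ∈ range L, Set.ncard {m : ℕ | m < M ∧ ¬ G (r i) m} :=
    (Set.ncard_le_ncard hsub hfin2).trans (Finset.set_ncard_biUnion_le _ _)
  have hM0 : (0 : ℝ) ≤ M := Nat.cast_nonneg M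
  calc (Set.ncard {m : ℕ | m < M ∧ ∃ i, ¬ G (r i) m} : ℝ)
      ≤ ∑ i ∈ range L, (Set.ncard {m : ℕ | m < M ∧ ¬ G (r i) m} : ℝ) := by exact_mod_cast h3
    _ ≤ ∑ i ∈ range L, ε / 2 / 2 ^ i * M := sum_le_sum fun i _ => hN i (r i) (hr i) M
    _ = (ε / 2 * M) * ∑ i ∈ range L, (1 / 2 : ℝ) ^ i := by
        rw [mul_sum]
        refine sum_congr rfl fun i _ => ?_
        rw [one_div, inv_pow]
        field_simp
    _ ≤ (ε / 2 * M) * 2 := by
        apply mul_le_mul_of_nonneg_left _ (by positivity)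
        have h4 : ∑ i ∈ range L, (1 / 2 : ℝ) ^ i = 2 - 2 * (1 / 2) ^ L := by
          rw [geom_sum_eq (by norm_num)]
          ring
        have h5 : (0 : ℝ) ≤ (1 / 2) ^ L := by positivity
        linarith
    _ = ε * M := by ring

/-- pairs -/
theorem pairs_gen {G : ℕ → ℕ → Prop}
    (hu : ∀ ε : ℝ, 0 < ε → ∃ N : ℕ, 10 ≤ N ∧ ∀ r : ℕ, N ≤ r → ∀ M : ℕ,
      (Set.ncard {m : ℕ | m < M ∧ ¬ G r m} : ℝ) ≤ ε * M) {ε : ℝ} (hε : 0 < ε) :
    ∃ R₀ : ℕ, ∀ R : ℕ, R₀ ≤ R → ∀ M : ℕ,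
      (Set.ncard {m : ℕ | m < M ∧ ε * R ≤ Set.ncard {r : ℕ | 10 ≤ r ∧ r < R ∧ ¬ G r m}} : ℝ) ≤
        ε * M := by
  classical
  obtain ⟨N, hN10, hN⟩ := hu (ε ^ 2 / 2) (by positivity)
  obtain ⟨R₀, hR₀⟩ := exists_nat_ge (N / (ε ^ 2 / 2) + 1)
  refine ⟨R₀, fun R hR M => ?_⟩
  have hRR : (R₀ : ℝ) ≤ R := by exact_mod_cast hR
  have hN0 : (0 : ℝ) ≤ N := Nat.cast_nonneg N
  have hdiv : 0 ≤ N / (ε ^ 2 / 2) := by positivity
  have hR0 : (0 : ℝ) < R := by linarith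
  have hNR : (N : ℝ) ≤ ε ^ 2 / 2 * R := by
    have : N / (ε ^ 2 / 2) ≤ R := by linarith
    rw [div_le_iff₀ (by positivity)] at this
    linarith
  have hM0 : (0 : ℝ) ≤ M := Nat.cast_nonneg M
  -- finite sets
  obtain ⟨B, hB⟩ : ∃ B : ℕ → Finset ℕ, ∀ m, B m =
      (range R).filter (fun r => 10 ≤ r ∧ ¬ G r m) := ⟨_, fun m => rfl⟩
  have hBn : ∀ m, Set.ncard {r : ℕ | 10 ≤ r ∧ r < R ∧ ¬ G r m} = (B m).card := by
    intro m
    rw [← Set.ncard_coe_finset, hB]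
    congr 1
    ext r
    simp only [Set.mem_setOf_eq, coe_filter, mem_range]
    tauto
  obtain ⟨D, hD⟩ : ∃ D : ℕ → Finset ℕ, ∀ r, D r =
      (range M).filter (fun m => ¬ G r m) := ⟨_, fun r => rfl⟩
  have hDn : ∀ r, Set.ncard {m : ℕ | m < M ∧ ¬ G r m} = (D r).card := by
    intro r
    rw [← Set.ncard_coe_finset, hD]
    congr 1
    ext m
    simp only [Set.mem_setOf_eq, coe_filter, mem_range]
  have hsum : ∑ m ∈ range M, ((B m).card : ℝ) ≤ ε ^ 2 * R * M := by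
    have e1 : ∑ m ∈ range M, ((B m).card : ℝ) =
        ∑ r ∈ range R, ∑ m ∈ range M, (if 10 ≤ r ∧ ¬ G r m then (1 : ℝ) else 0) := by
      rw [sum_comm]
      refine sum_congr rfl fun m _ => ?_
      rw [hB, card_filter]
      push_cast
      rfl
    rw [e1]
    have h1 : ∀ r ∈ range R, ∑ m ∈ range M, (if 10 ≤ r ∧ ¬ G r m then (1 : ℝ) else 0) ≤
        (if r < N then (M : ℝ) else 0) + ε ^ 2 / 2 * M := by
      intro r _
      have h2 : ∑ m ∈ range M, (if 10 ≤ r ∧ ¬ G r m then (1 : ℝ) else 0) ≤ (D r).card := by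
        rw [hD, card_filter]
        push_cast
        refine sum_le_sum fun m _ => ?_
        split_ifs <;> simp_all
      have h3 : ((D r).card : ℝ) ≤ M := by
        have : (D r).card ≤ (range M).card := by
          rw [hD]
          exact card_filter_le _ _
        rw [card_range] at this
        exact_mod_cast this
      by_cases hr : r < N
      · rw [if_pos hr]
        have : 0 ≤ ε ^ 2 / 2 * M := by positivity
        linarith
      · rw [if_neg hr]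
        have h4 := hN r (not_lt.1 hr) M
        rw [hDn] at h4
        linarith
    refine (sum_le_sum h1).trans ?_
    rw [sum_add_distrib, sum_const, card_range, nsmul_eq_mul]
    have h5 : ∑ r ∈ range R, (if r < N then (M : ℝ) else 0) ≤ N * M := by
      rw [← sum_filter, sum_const, nsmul_eq_mul]
      apply mul_le_mul_of_nonneg_right _ hM0
      have : ((range R).filter (fun r => r < N)).card ≤ (range N).card := by
        apply card_le_card
        intro r hr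
        rw [mem_filter] at hr
        exact mem_range.2 hr.2
      rw [card_range] at this
      exact_mod_cast this
    have h6 : (N : ℝ) * M ≤ ε ^ 2 / 2 * R * M := mul_le_mul_of_nonneg_right hNR hM0
    nlinarith
  have hset : {m : ℕ | m < M ∧ ε * R ≤ Set.ncard {r : ℕ | 10 ≤ r ∧ r < R ∧ ¬ G r m}} =
      ↑((range M).filter (fun m => ε * R ≤ ((B m).card : ℝ))) := by
    ext m
    simp only [Set.mem_setOf_eq, coe_filter, mem_range, hBn]
  rw [hset, Set.ncard_coe_finset]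
  have h7 : ((range M).filter (fun m => ε * R ≤ ((B m).card : ℝ))).card * (ε * R) ≤
      ∑ m ∈ range M, ((B m).card : ℝ) := by
    calc (((range M).filter (fun m => ε * R ≤ ((B m).card : ℝ))).card : ℝ) * (ε * R)
        = ∑ _m ∈ (range M).filter (fun m => ε * R ≤ ((B m).card : ℝ)), (ε * R) := by
          rw [sum_const, nsmul_eq_mul]
      _ ≤ ∑ m ∈ (range M).filter (fun m => ε * R ≤ ((B m).card : ℝ)), ((B m).card : ℝ) :=
          sum_le_sum fun m hm => (mem_filter.1 hm).2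
      _ ≤ _ := sum_le_sum_of_subset_of_nonneg (filter_subset _ _)
          fun m _ _ => Nat.cast_nonneg _
  have h8 := h7.trans hsum
  have h9 : 0 < ε * R := by positivity
  have h10 : ε ^ 2 * R * M = ε * M * (ε * R) := by ring
  rw [h10] at h8
  exact le_of_mul_le_mul_right h8 h9

end Pool.Agent.L0h79.SN
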